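import Mathlib

/-!
Project MG (MP_78d38b_nt): group theory of finite two-groups (helper36, no row).
-/

set_option autoImplicit false
set_option linter.unusedSectionVars false

namespace H36MG

section Two

variable {G : Type*} [Group G]

/-- In a two-group a power of `x` has order two modulo `U`. -/
theorem exists_pow_two (hp : IsPGroup 2 G) (U : Subgroup G) {x : G} (hx : x ∉ U) :
    ∃ k : ℕ, x ^ 2 ^ k ∉ U ∧ (x ^ 2 ^ k) ^ 2 ∈ U := by
  obtain ⟨n, hn⟩ := hp x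
  have hex : ∃ n : ℕ, x ^ 2 ^ n ∈ U := ⟨n, by rw [hn]; exact U.one_mem⟩
  classical
  have h1 := Nat.find_spec hex
  have h0 : Nat.find hex ≠ 0 := by
    intro h0
    rw [h0, pow_zero, pow_one] at h1
    exact hx h1
  obtain ⟨k, hk⟩ := Nat.exists_eq_succ_of_ne_zero h0
  refine ⟨k, Nat.find_min hex (by omega), ?_⟩
  rw [← pow_mul, ← pow_succ]
  rw [hk] at h1
  exact h1

/-- An odd power of an element of a two-group generates it. -/
theorem mem_of_odd_pow (hp : IsPGroup 2 G) (U : Subgroup G) {x : G} {n : ℤ} (hn : ¬ Even n)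
    (h : x ^ n ∈ U) : x ∈ U := by
  obtain ⟨k, hk⟩ := hp x
  have hn' : Odd n := Int.not_even_iff_odd.1 hn
  have hco : IsCoprime n ((2 : ℤ) ^ k) := by
    apply IsCoprime.pow_right
    rw [Int.isCoprime_iff_gcd_eq_one]
    have h1 : IsCoprime n 2 := by
      obtain ⟨m, hm⟩ := hn'
      exact ⟨1, -m, by rw [hm]; ring⟩
    exact Int.isCoprime_iff_gcd_eq_one.1 h1
  obtain ⟨a, b, hab⟩ := hco
  have h2 : x ^ ((2 : ℤ) ^ k) = 1 := by
    have h3 : ((2 : ℤ) ^ k) = ((2 ^ k : ℕ) : ℤ) := by push_cast; rfl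
    rw [h3, zpow_natCast, hk]
  have h4 : x = (x ^ n) ^ a := by
    rw [← zpow_mul]
    have h5 : x = x ^ (a * n + b * 2 ^ k) := by rw [hab, zpow_one]
    have h6 : b * (2 : ℤ) ^ k = 2 ^ k * b := by ring
    rw [zpow_add, h6, zpow_mul x ((2 : ℤ) ^ k) b, h2, one_zpow, mul_one] at h5
    have h7 : a * n = n * a := by ring
    rw [← h7]
    exact h5
  rw [h4]
  exact U.zpow_mem h a

/-- A commutative two-group with one involution is cyclic. -/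
theorem cyc_of_unique [Finite G] (hp : IsPGroup 2 G) (H : Subgroup G)
    (hc : ∀ x ∈ H, ∀ y ∈ H, x * y = y * x) {ζ : G} (hζ1 : ζ ≠ 1) (hζ2 : ζ ^ 2 = 1)
    (hu : ∀ x ∈ H, x ≠ 1 → ∃ k : ℕ, x ^ 2 ^ k = ζ) (hH : H ≠ ⊥) :
    ∃ g ∈ H, (∀ h ∈ H, h ∈ Subgroup.zpowers g) ∧ ∃ r : ℕ, g ^ 2 ^ r = ζ := by
  obtain ⟨⟨g, hg⟩, hmax⟩ := Finite.exists_max (fun x : H => orderOf (x : G))
  have hmax' : ∀ y ∈ H, orderOf y ≤ orderOf g := fun y hy => hmax ⟨y, hy⟩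
  have hg1 : g ≠ 1 := by
    rintro rfl
    apply hH
    rw [eq_bot_iff]
    intro y hy
    have h1 := hmax' y hy
    rw [orderOf_one] at h1
    have h2 : orderOf y = 1 := le_antisymm h1 (orderOf_pos y)
    rw [Subgroup.mem_bot]
    exact orderOf_eq_one_iff.1 h2
  obtain ⟨r, hr⟩ := hu g hg hg1
  refine ⟨g, hg, fun h hh => ?_, r, hr⟩
  by_contra hcon
  obtain ⟨j, hj1, hj2⟩ := exists_pow_two hp (Subgroup.zpowers g) hcon
  obtain ⟨x, hx⟩ : ∃ x, x = h ^ 2 ^ j := ⟨_, rfl⟩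
  rw [← hx] at hj1 hj2
  have hxH : x ∈ H := by
    rw [hx]
    exact H.pow_mem hh _
  obtain ⟨k, hk⟩ := Subgroup.mem_zpowers_iff.1 hj2
  have hzp : ∀ l : ℤ, (x * g ^ (-l)) ^ 2 = g ^ (k - 2 * l) := by
    intro l
    have hcg : Commute x (g ^ (-l)) := hc x hxH _ (H.zpow_mem hg _)
    rw [hcg.mul_pow, ← hk, ← zpow_natCast (g ^ (-l)) 2, ← zpow_mul, ← zpow_add]
    congr 1
    push_cast
    ring
  rcases Int.even_or_odd' k with ⟨l, hl | hl⟩
  · have h1 := hzp l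
    rw [hl, sub_self, zpow_zero] at h1
    have hy1 : x * g ^ (-l) ≠ 1 := by
      intro h2
      apply hj1
      have h3 : x = g ^ l := by
        rw [zpow_neg, mul_inv_eq_one] at h2
        exact h2
      rw [h3]
      exact Subgroup.zpow_mem_zpowers g l
    obtain ⟨k', hk'⟩ := hu _ (H.mul_mem hxH (H.zpow_mem hg _)) hy1
    have h4 : k' = 0 := by
      by_contra h5
      obtain ⟨m, rfl⟩ := Nat.exists_eq_succ_of_ne_zero h5
      rw [pow_succ', pow_mul, h1, one_pow] at hk'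
      exact hζ1 hk'.symm
    rw [h4, pow_zero, pow_one] at hk'
    apply hj1
    have h6 : x = g ^ (2 ^ r : ℕ) * g ^ l := by
      rw [hr, ← hk', zpow_neg]
      group
    rw [h6]
    exact mul_mem (Subgroup.npow_mem_zpowers g _) (Subgroup.zpow_mem_zpowers g l)
  · have h1 := hzp l
    rw [hl] at h1
    have h2 : 2 * l + 1 - 2 * l = 1 := by ring
    rw [h2, zpow_one] at h1
    have h3 := hmax' _ (H.mul_mem hxH (H.zpow_mem hg (-l)))
    obtain ⟨n, hn⟩ := hp (x * g ^ (-l))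
    have hy1 : orderOf (x * g ^ (-l)) ≠ 1 := by
      intro h4
      rw [orderOf_eq_one_iff] at h4
      rw [h4, one_pow] at h1
      exact hg1 h1.symm
    have h5 : 2 ∣ orderOf (x * g ^ (-l)) := by
      have h6 := orderOf_dvd_of_pow_eq_one hn
      obtain ⟨m, -, hm⟩ := (Nat.dvd_prime_pow Nat.prime_two).1 h6
      rw [hm] at hy1 ⊢
      apply dvd_pow_self
      rintro rfl
      exact hy1 (pow_zero 2)
    have h7 : orderOf g = orderOf (x * g ^ (-l)) / 2 := by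
      have h9 := orderOf_pow (x * g ^ (-l)) (n := 2)
      rw [h1, Nat.gcd_eq_right h5] at h9
      exact h9
    have h8 : 0 < orderOf (x * g ^ (-l)) := orderOf_pos _
    omega

/-- **Gp1.** -/
theorem cyc_or [Finite G] (hp : IsPGroup 2 G) (U : Subgroup G) [U.Normal] {z : G}
    (hmono : ∀ x : G, x ∉ U → (∀ y, x * y * x⁻¹ * y⁻¹ ∈ U) → x ^ 2 ∈ U → x * z⁻¹ ∈ U)
    (D : Subgroup G) (hD : ∀ x ∈ D, ∀ y ∈ D, x * y = y * x)
    (hn : ∀ x ∈ D, ∀ y, y * x * y⁻¹ ∈ Subgroup.zpowers x) :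
    D ≤ U ∨ ∃ g ∈ D, ∃ r : ℕ, (∀ h ∈ D, ∃ i : ℕ, ∃ c ∈ U, h = g ^ i * c) ∧
      g ^ 2 ^ r * z⁻¹ ∈ U := by
  by_cases hDU : D ≤ U
  · exact Or.inl hDU
  right
  have hU : U.Normal := inferInstance
  -- powers reach `z`
  have key : ∀ x ∈ D, x ∉ U → ∃ k : ℕ, x ^ 2 ^ k ∉ U ∧ (x ^ 2 ^ k) ^ 2 ∈ U ∧
      x ^ 2 ^ k * z⁻¹ ∈ U := by
    intro x hx hxU
    obtain ⟨k, h1, h2⟩ := exists_pow_two hp U hxU
    refine ⟨k, h1, h2, hmono _ h1 (fun y => ?_) h2⟩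
    obtain ⟨x', hx'⟩ : ∃ x', x' = x ^ 2 ^ k := ⟨_, rfl⟩
    rw [← hx'] at h1 h2 ⊢
    have hx'D : x' ∈ D := by
      rw [hx']
      exact D.pow_mem hx _
    obtain ⟨n, hn'⟩ := Subgroup.mem_zpowers_iff.1 (hn x' hx'D y)
    have hsq : ∀ m : ℤ, x' ^ (2 * m) ∈ U := by
      intro m
      rw [zpow_mul]
      apply U.zpow_mem
      have h3 : x' ^ (2 : ℤ) = x' ^ 2 := by norm_cast
      rw [h3]
      exact h2
    rcases Int.even_or_odd' n with ⟨m, hm | hm⟩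
    · exfalso
      apply h1
      have h3 : y * x' * y⁻¹ ∈ U := by
        rw [← hn', hm]
        exact hsq m
      have h4 := hU.conj_mem _ h3 y⁻¹
      have h5 : y⁻¹ * (y * x' * y⁻¹) * y⁻¹⁻¹ = x' := by group
      rwa [h5] at h4
    · have h3 : x' * y * x'⁻¹ * y⁻¹ = x' * (y * x' * y⁻¹)⁻¹ := by group
      rw [h3, ← hn', hm]
      have h4 : x' * (x' ^ (2 * m + 1))⁻¹ = (x' ^ (2 * m))⁻¹ := by
        rw [zpow_add, zpow_one]
        group
      rw [h4]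
      exact U.inv_mem (hsq m)
  obtain ⟨x₀, hx₀, hx₀U⟩ := SetLike.not_le_iff_exists.1 hDU
  obtain ⟨k₀, h1, h2, h3⟩ := key x₀ hx₀ hx₀U
  have hmk : ∀ x : G, QuotientGroup.mk' U x = 1 ↔ x ∈ U := fun x => by
    rw [← MonoidHom.mem_ker, QuotientGroup.ker_mk']
  have hzz : QuotientGroup.mk' U (x₀ ^ 2 ^ k₀) = QuotientGroup.mk' U z := by
    have h4 := (hmk _).2 h3
    rw [map_mul, map_inv, mul_inv_eq_one] at h4
    exact h4
  have hζ1 : QuotientGroup.mk' U z ≠ 1 := by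
    rw [← hzz]
    exact fun h => h1 ((hmk _).1 h)
  have hζ2 : (QuotientGroup.mk' U z) ^ 2 = 1 := by
    rw [← hzz, ← map_pow]
    exact (hmk _).2 h2
  have hpQ : IsPGroup 2 (G ⧸ U) := hp.to_quotient U
  obtain ⟨γ, ⟨g, hg, rfl⟩, hgen, r, hr⟩ := cyc_of_unique hpQ (D.map (QuotientGroup.mk' U)) (by
      rintro _ ⟨x, hx, rfl⟩ _ ⟨y, hy, rfl⟩
      rw [← map_mul, ← map_mul, hD x hx y hy]) hζ1 hζ2 (by
      rintro _ ⟨x, hx, rfl⟩ hx1
      obtain ⟨k, -, -, h6⟩ := key x hx (fun h => hx1 ((hmk x).2 h))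
      refine ⟨k, ?_⟩
      have h4 := (hmk _).2 h6
      rw [map_mul, map_inv, mul_inv_eq_one, map_pow] at h4
      exact h4) (by
      intro h
      apply hx₀U
      rw [← hmk]
      have h5 : QuotientGroup.mk' U x₀ ∈ D.map (QuotientGroup.mk' U) := ⟨x₀, hx₀, rfl⟩
      rw [h] at h5
      exact h5)
  refine ⟨g, hg, r, fun h hh => ?_, ?_⟩
  · have h4 := hgen _ ⟨h, hh, rfl⟩
    rw [← mem_powers_iff_mem_zpowers] at h4
    obtain ⟨i, hi⟩ := h4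
    refine ⟨i, (g ^ i)⁻¹ * h, ?_, by group⟩
    rw [← hmk, map_mul, map_inv, map_pow, inv_mul_eq_one]
    exact hi
  · rw [← hmk, map_mul, map_inv, mul_inv_eq_one, map_pow]
    exact hr

end Two

section Cl

variable {G : Type*} [Group G]

/-- The elements of `D` which generate `D` modulo `T`, not in `T`. -/
def clS (D T : Subgroup G) : Set G := {h | h ∈ D ∧ h ∉ T ∧ ∀ h' ∈ D, ∃ i : ℕ, h ^ i * h'⁻¹ ∈ T}

theorem cl_empty {D T : Subgroup G} (h : D ≤ T) : clS D T = ∅ := by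
  rw [Set.eq_empty_iff_forall_notMem]
  rintro x ⟨hx, hxT, -⟩
  exact hxT (h hx)

theorem cl_nonempty {D T : Subgroup G} (hD : ∀ x ∈ D, ∀ y ∈ D, x * y = y * x)
    (hcyc : ∃ g ∈ D, ∀ h ∈ D, ∃ i : ℕ, ∃ c ∈ T, h = g ^ i * c) (h : ¬ D ≤ T) :
    (clS D T).Nonempty := by
  obtain ⟨g, hg, hgen⟩ := hcyc
  refine ⟨g, hg, fun hgT => h fun x hx => ?_, fun x hx => ?_⟩
  · obtain ⟨i, c, hc, rfl⟩ := hgen x hx
    exact T.mul_mem (T.pow_mem hgT i) hc
  · obtain ⟨i, c, hc, rfl⟩ := hgen x hx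
    refine ⟨i, ?_⟩
    have h1 : c ∈ D := by
      have h2 := D.mul_mem (D.inv_mem (D.pow_mem hg i)) hx
      have h3 : (g ^ i)⁻¹ * (g ^ i * c) = c := by group
      rwa [h3] at h2
    have h2 : g ^ i * (g ^ i * c)⁻¹ = c⁻¹ := by
      rw [mul_inv_rev, ← mul_assoc, hD _ (D.pow_mem hg i) _ (D.inv_mem h1)]
      group
    rw [h2]
    exact T.inv_mem hc

theorem cl_notMem {D T : Subgroup G} {g : G} (h : g ∈ clS D T) : g ∉ T := h.2.1

/-- The elements of `cl` are the elements of `D` which are not squares modulo `T`. -/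
theorem mem_cl {D T : Subgroup G} (hp : IsPGroup 2 G) (hD : ∀ x ∈ D, ∀ y ∈ D, x * y = y * x)
    (hcyc : ∃ g ∈ D, ∀ h ∈ D, ∃ i : ℕ, ∃ c ∈ T, h = g ^ i * c) {h : G} :
    h ∈ clS D T ↔ h ∈ D ∧ ∀ x ∈ D, h * (x ^ 2)⁻¹ ∉ T := by
  obtain ⟨g, hg, hgen⟩ := hcyc
  have hcom : ∀ x ∈ D, ∀ y ∈ D, Commute x y := fun x hx y hy => hD x hx y hy
  constructor
  · rintro ⟨h1, h2, h3⟩
    refine ⟨h1, fun x hx hT => h2 ?_⟩
    obtain ⟨i, hi⟩ := h3 x hx
    have h4 : h ^ (2 * (i : ℤ) - 1) ∈ T := by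
      have e : h ^ (2 * (i : ℤ) - 1) = (h * (x ^ 2)⁻¹)⁻¹ * ((h ^ i * x⁻¹) ^ 2) := by
        have c1 : Commute (h ^ i) x⁻¹ := hcom _ (D.pow_mem h1 i) _ (D.inv_mem hx)
        have c2 : Commute h (x ^ 2)⁻¹ := hcom _ h1 _ (D.inv_mem (D.pow_mem hx 2))
        have c3 : Commute (x ^ 2) (h ^ (i * 2)) := hcom _ (D.pow_mem hx 2) _ (D.pow_mem h1 _)
        rw [c1.mul_pow, c2.mul_inv, inv_inv, ← pow_mul, inv_pow]
        have e2 : h ^ (2 * (i : ℤ) - 1) = h⁻¹ * h ^ (i * 2) := by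
          rw [← zpow_natCast h (i * 2), ← zpow_neg_one, ← zpow_add]
          congr 1
          push_cast
          ring
        rw [e2, mul_assoc, ← mul_assoc (x ^ 2), c3.eq, mul_assoc, mul_inv_cancel, mul_one]
      rw [e]
      exact T.mul_mem (T.inv_mem hT) (T.pow_mem hi 2)
    refine mem_of_odd_pow hp T ?_ h4
    rw [Int.not_even_iff_odd]
    exact ⟨(i : ℤ) - 1, by ring⟩
  · rintro ⟨h1, h2⟩
    obtain ⟨i, c, hc, hic⟩ := hgen h h1
    have hcD : c ∈ D := by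
      have h3 := D.mul_mem (D.inv_mem (D.pow_mem hg i)) h1
      rw [hic] at h3
      have h4 : (g ^ i)⁻¹ * (g ^ i * c) = c := by group
      rwa [h4] at h3
    have hodd : Odd i := by
      rw [← Nat.not_even_iff_odd]
      rintro ⟨m, hm⟩
      apply h2 (g ^ m) (D.pow_mem hg m)
      rw [hic, hm, hD _ (D.pow_mem hg _) _ hcD]
      have h5 : c * g ^ (m + m) * ((g ^ m) ^ 2)⁻¹ = c := by
        rw [← pow_mul, mul_two, mul_assoc, mul_inv_cancel, mul_one]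
      rw [h5]
      exact hc
    refine ⟨h1, fun hT => ?_, fun y hy => ?_⟩
    · apply h2 1 D.one_mem
      rw [one_pow, inv_one, mul_one]
      exact hT
    · obtain ⟨j, c', hc', hjc⟩ := hgen y hy
      have hc'D : c' ∈ D := by
        have h3 := D.mul_mem (D.inv_mem (D.pow_mem hg j)) hy
        rw [hjc] at h3
        have h4 : (g ^ j)⁻¹ * (g ^ j * c') = c' := by group
        rwa [h4] at h3
      -- the inverse of `i` modulo the order of `g`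
      obtain ⟨n, hn⟩ := hp g
      have hco : IsCoprime (i : ℤ) ((2 : ℤ) ^ n) := by
        apply IsCoprime.pow_right
        obtain ⟨m, hm⟩ := hodd
        exact ⟨1, -m, by rw [hm]; push_cast; ring⟩
      obtain ⟨a, b, hab⟩ := hco
      have h2n : g ^ ((2 : ℤ) ^ n) = 1 := by
        have h3 : ((2 : ℤ) ^ n) = ((2 ^ n : ℕ) : ℤ) := by push_cast; rfl
        rw [h3, zpow_natCast, hn]
      have h5 : h ^ (a * (j : ℤ)) = g ^ j * c ^ (a * (j : ℤ)) := by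
        have c1 : Commute (g ^ i) c := hcom _ (D.pow_mem hg i) _ hcD
        rw [hic, c1.mul_zpow]
        congr 1
        rw [← zpow_natCast g i, ← zpow_natCast g j, ← zpow_mul]
        have h6 : (i : ℤ) * (a * (j : ℤ)) = (j : ℤ) + (2 : ℤ) ^ n * (-(b * j)) := by
          linear_combination (j : ℤ) * hab
        rw [h6, zpow_add, zpow_mul g ((2 : ℤ) ^ n), h2n, one_zpow, mul_one]
      obtain ⟨n', hn'⟩ := hp h
      have hfin : IsOfFinOrder h := isOfFinOrder_iff_pow_eq_one.2 ⟨2 ^ n', by positivity, hn'⟩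
      have h7 : h ^ (a * (j : ℤ)) ∈ Submonoid.powers h := by
        rw [hfin.mem_powers_iff_mem_zpowers]
        exact Subgroup.zpow_mem_zpowers h _
      obtain ⟨m, hm⟩ := h7
      refine ⟨m, ?_⟩
      have h8 : h ^ m = h ^ (a * (j : ℤ)) := hm
      have c2 : Commute (c ^ (a * (j : ℤ))) (c'⁻¹) :=
        hcom _ (D.zpow_mem hcD _) _ (D.inv_mem hc'D)
      have c3 : Commute (g ^ j) (c ^ (a * (j : ℤ)) * c'⁻¹) :=
        hcom _ (D.pow_mem hg j) _ (D.mul_mem (D.zpow_mem hcD _) (D.inv_mem hc'D))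
      rw [h8, h5, hjc, mul_inv_rev]
      have h9 : g ^ j * c ^ (a * (j : ℤ)) * (c'⁻¹ * (g ^ j)⁻¹) =
          (g ^ j * (c ^ (a * (j : ℤ)) * c'⁻¹)) * (g ^ j)⁻¹ := by group
      rw [h9, c3.eq, mul_assoc, mul_inv_cancel, mul_one]
      exact T.mul_mem (T.zpow_mem hc _) (T.inv_mem hc')

/-- Squares times `T`. -/
private def sqS (D T : Subgroup G) (hD : ∀ x ∈ D, ∀ y ∈ D, x * y = y * x) : Subgroup G where
  carrier := {h | h ∈ D ∧ ∃ x ∈ D, h * (x ^ 2)⁻¹ ∈ T}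
  mul_mem' := by
    rintro a b ⟨ha, x, hx, hxa⟩ ⟨hb, y, hy, hyb⟩
    refine ⟨D.mul_mem ha hb, x * y, D.mul_mem hx hy, ?_⟩
    have c1 : Commute x y := hD x hx y hy
    have c2 : Commute b (x ^ 2)⁻¹ := hD _ hb _ (D.inv_mem (D.pow_mem hx 2))
    have c3 : Commute (x ^ 2)⁻¹ (y ^ 2)⁻¹ :=
      hD _ (D.inv_mem (D.pow_mem hx 2)) _ (D.inv_mem (D.pow_mem hy 2))
    have e : a * b * ((x * y) ^ 2)⁻¹ = (a * (x ^ 2)⁻¹) * (b * (y ^ 2)⁻¹) := by
      rw [c1.mul_pow, mul_inv_rev, ← c3.eq, mul_assoc, mul_assoc, ← mul_assoc b, c2.eq, mul_assoc]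
    rw [e]
    exact T.mul_mem hxa hyb
  one_mem' := ⟨D.one_mem, 1, D.one_mem, by simpa using T.one_mem⟩
  inv_mem' := by
    rintro a ⟨ha, x, hx, hxa⟩
    refine ⟨D.inv_mem ha, x⁻¹, D.inv_mem hx, ?_⟩
    have c2 : Commute a (x ^ 2)⁻¹ := hD _ ha _ (D.inv_mem (D.pow_mem hx 2))
    have e : a⁻¹ * ((x⁻¹) ^ 2)⁻¹ = (a * (x ^ 2)⁻¹)⁻¹ := by
      rw [c2.mul_inv, inv_pow]
    rw [e]
    exact T.inv_mem hxa

/-- **Gp2 (c), first case**: a type which is not empty is separated by a test `(g, 0)`. -/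
theorem cl_sep1 {D T T' : Subgroup G} (hp : IsPGroup 2 G)
    (hD : ∀ x ∈ D, ∀ y ∈ D, x * y = y * x)
    (hcyc : ∃ g ∈ D, ∀ h ∈ D, ∃ i : ℕ, ∃ c ∈ T, h = g ^ i * c)
    (hcyc' : ∃ g ∈ D, ∀ h ∈ D, ∃ i : ℕ, ∃ c ∈ T', h = g ^ i * c)
    (hne : (clS D T).Nonempty) (h : clS D T' ≠ clS D T) : ∃ g ∈ clS D T, g ∈ T' := by
  by_contra hcon
  have hcon' : ∀ g ∈ clS D T, g ∉ T' := fun g hg hgT => hcon ⟨g, hg, hgT⟩
  apply h
  -- elements of `D` in `T'` are squares modulo `T`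
  have h1 : ∀ c ∈ D, c ∈ T' → ∃ x ∈ D, c * (x ^ 2)⁻¹ ∈ T := by
    intro c hc hcT
    by_contra h2
    refine hcon' c ((mem_cl hp hD hcyc).2 ⟨hc, fun x hx hxT => h2 ⟨x, hx, hxT⟩⟩) hcT
  -- squares modulo `T'` are squares modulo `T`
  have h2 : ∀ y ∈ D, (∃ x ∈ D, y * (x ^ 2)⁻¹ ∈ T') → ∃ x ∈ D, y * (x ^ 2)⁻¹ ∈ T := by
    rintro y hy ⟨x, hx, hxT⟩
    have h3 := D.mul_mem hy (D.inv_mem (D.pow_mem hx 2))
    have h4 : y * (x ^ 2)⁻¹ ∈ sqS D T hD := ⟨h3, h1 _ h3 hxT⟩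
    have h5 : x ^ 2 ∈ sqS D T hD :=
      ⟨D.pow_mem hx 2, x, hx, by rw [mul_inv_cancel]; exact T.one_mem⟩
    have h6 := (sqS D T hD).mul_mem h4 h5
    rw [inv_mul_cancel_right] at h6
    exact h6.2
  ext y
  rw [mem_cl hp hD hcyc, mem_cl hp hD hcyc']
  constructor
  · rintro ⟨hy, hyn⟩
    refine ⟨hy, fun x hx hxT => ?_⟩
    -- `y` is a generator modulo `T'`; if it is a square modulo `T` then everything is
    obtain ⟨g, hg⟩ := hne
    obtain ⟨hgD, hgn⟩ := (mem_cl hp hD hcyc).1 hg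
    have hy' : y ∈ clS D T' := (mem_cl hp hD hcyc').2 ⟨hy, hyn⟩
    obtain ⟨i, hi⟩ := hy'.2.2 g hgD
    have h3 : y ^ i * g⁻¹ ∈ sqS D T hD := by
      have h4 := D.mul_mem (D.pow_mem hy i) (D.inv_mem hgD)
      exact ⟨h4, h1 _ h4 hi⟩
    have h5 : y ∈ sqS D T hD := ⟨hy, x, hx, hxT⟩
    have h6 := (sqS D T hD).mul_mem ((sqS D T hD).inv_mem h3) ((sqS D T hD).pow_mem h5 i)
    have h7 : (y ^ i * g⁻¹)⁻¹ * y ^ i = g := by group
    rw [h7] at h6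
    obtain ⟨-, x', hx', hxT'⟩ := h6
    exact hgn x' hx' hxT'
  · rintro ⟨hy, hyn⟩
    refine ⟨hy, fun x hx hxT => ?_⟩
    obtain ⟨x', hx', hxT'⟩ := h2 y hy ⟨x, hx, hxT⟩
    exact hyn x' hx' hxT'

/-- **Gp2 (c), second case**: the empty type is separated by a test `(g, 1)`. -/
theorem cl_sep2 {D T T' : Subgroup G} (hp : IsPGroup 2 G) (h0 : clS D T = ∅)
    (h : clS D T' ≠ clS D T) : ∃ g ∈ D, g ∉ T' ∧ g ^ 2 ∈ T' := by
  have h1 : ¬ D ≤ T' := by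
    intro h2
    apply h
    rw [h0, cl_empty h2]
  obtain ⟨x, hx, hxT⟩ := SetLike.not_le_iff_exists.1 h1
  obtain ⟨k, h2, h3⟩ := exists_pow_two hp T' hxT
  exact ⟨x ^ 2 ^ k, D.pow_mem hx _, h2, h3⟩

end Cl

end H36MG
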