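import Pool.Agent.H14.T1.Mu
import Pool.Agent.H36.MG.Gp

/-!
Project MG (MP_78d38b_nt): from the monolithic pairs to all fields (helper36, no row). Compare
`Pool/Agent/H30/MQ/Mu.lean`.
-/

set_option autoImplicit false
set_option linter.style.haveILetI false
set_option linter.unusedSectionVars false
open scoped Classical

open NumberField IsDedekindDomain WeierstrassCurve Pool.Agent.H10 Pool.Agent.H11 Pool.Agent.H93.MQ

namespace H36MG

/-- The twist of `y^2 = x^3 + A x + B` by an element `μ` of the extension `M` of `K`. -/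
def twM (K : Type*) {M : Type*} [Field K] [Field M] [Algebra K M] (A B : K) (μ : M) :
    WeierstrassCurve M :=
  ⟨0, 0, 0, μ ^ 2 * algebraMap K M A, μ ^ 3 * algebraMap K M B⟩

lemma twM_map (K : Type*) {M M' : Type*} [Field K] [Field M] [Algebra K M] [Field M'] [Algebra K M']
    [Algebra M M'] [IsScalarTower K M M'] (A B : K) (μ : M) :
    (twM K A B μ).map (algebraMap M M') = twM K A B (algebraMap M M' μ) := by
  ext <;> simp [twM, IsScalarTower.algebraMap_apply K M M']

lemma twM_ell {K M : Type*} [Field K] [Field M] [CharZero M] [Algebra K M] {A B : K}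
    (hAB : 4 * A ^ 3 + 27 * B ^ 2 ≠ 0) {μ : M} (hμ : μ ≠ 0) : (twM K A B μ).IsElliptic := by
  refine ⟨?_⟩
  have h1 : (twM K A B μ).Δ = -16 * (μ ^ 6 * algebraMap K M (4 * A ^ 3 + 27 * B ^ 2)) := by
    rw [WeierstrassCurve.Δ, WeierstrassCurve.b₂, WeierstrassCurve.b₄, WeierstrassCurve.b₆,
      WeierstrassCurve.b₈]
    simp only [twM, map_mul, map_add, map_pow, map_ofNat]
    ring
  rw [h1, isUnit_iff_ne_zero]
  refine mul_ne_zero (by norm_num) (mul_ne_zero (pow_ne_zero 6 hμ) ((map_ne_zero _).2 hAB))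

/-- The twist by `μ` has bounded two-primary part and finitely many points. -/
def PG (K : Type) {M : Type} [Field K] [Field M] [NumberField M] [Algebra K M] (A B : K) (μ : M) :
    Prop :=
  Bdd M (twM K A B μ) ∧ Finite (twM K A B μ).toAffine.Point

section Step

variable {K : Type} [Field K]

lemma rsc_tw {M : Type} [Field M] [Algebra K M] (A B : K) {s d d' : M} (hs : s ≠ 0)
    (h : d' = s ^ 2 * d) : Rsc s (twM K A B d) (twM K A B d') := by
  refine ⟨hs, ?_, ?_, ?_, ?_, ?_⟩
  · show (0 : M) = s * 0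
    rw [mul_zero]
  · show (0 : M) = s ^ 2 * 0
    rw [mul_zero]
  · show (0 : M) = s ^ 3 * 0
    rw [mul_zero]
  · show d' ^ 2 * algebraMap K M A = s ^ 4 * (d ^ 2 * algebraMap K M A)
    rw [h]
    ring
  · show d' ^ 3 * algebraMap K M B = s ^ 6 * (d ^ 3 * algebraMap K M B)
    rw [h]
    ring

/-- **Gt1.** -/
theorem pair_step {A B : K} (hAB : 4 * A ^ 3 + 27 * B ^ 2 ≠ 0)
    {M M' : Type} [Field M] [NumberField M] [Field M'] [NumberField M'] [Algebra K M] [Algebra K M']
    [Algebra M M'] [IsScalarTower K M M'] {d m : M} (hd : d ≠ 0) (hm : m ≠ 0)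
    {s : M'} (hs : s ^ 2 = algebraMap M M' m)
    (hgen : ∀ x : M', ∃ a b : M, x = algebraMap M M' a + algebraMap M M' b * s)
    (H1 : PG K A B d) (H2 : PG K A B (d * m)) : PG K A B (algebraMap M M' d) := by
  have hm0 : algebraMap M M' m ≠ 0 := (map_ne_zero _).2 hm
  have hnorm : Normal M M' := H14T1.normal_quad (c := m) hs hgen
  have hs0 : s ≠ 0 := by
    intro h0
    rw [h0, zero_pow two_ne_zero] at hs
    exact hm0 hs.symm
  have hsig : ∀ σ : M' ≃ₐ[M] M', σ s = s ∨ σ s = -s := by
    intro σ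
    have h1 : (σ s) ^ 2 = s ^ 2 := by
      rw [← map_pow, hs, AlgEquiv.commutes]
    exact sq_eq_sq_iff_eq_or_eq_neg.1 h1
  have hfix : ∀ σ : M' ≃ₐ[M] M', σ s = s → σ = 1 := by
    intro σ h1
    ext x
    obtain ⟨a, b, hx⟩ := hgen x
    rw [hx, map_add, map_mul, AlgEquiv.commutes, AlgEquiv.commutes, h1]
    simp
  have hR : Rsc s (twM K A B (algebraMap M M' d)) (twM K A B (algebraMap M M' (d * m))) :=
    rsc_tw A B hs0 (by rw [map_mul, hs, mul_comm])
  have hσ : ∀ σ : M' ≃ₐ[M] M', σ = 1 ∨ σ s = -s := fun σ => (hsig σ).imp_left (hfix σ)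
  have huniq : ∀ σ τ : M' ≃ₐ[M] M', σ s = -s → τ s = -s → σ = τ := by
    intro σ τ h1 h2
    ext x
    obtain ⟨a, b, hx⟩ := hgen x
    rw [hx, map_add, map_mul, map_add, map_mul, AlgEquiv.commutes, AlgEquiv.commutes,
      AlgEquiv.commutes, AlgEquiv.commutes, h1, h2]
  have hell : (twM K A B (algebraMap M M' d)).IsElliptic := twM_ell hAB ((map_ne_zero _).2 hd)
  exact ⟨bdd_step (twM_map K (M := M) (M' := M') A B d) (twM_map K (M := M) (M' := M') A B (d * m))
      hR hσ huniq H1.1 H2.1,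
    fin_step (twM_map K (M := M) (M' := M') A B d) (twM_map K (M := M) (M' := M') A B (d * m))
      hR hσ huniq H1.2 H2.2⟩

theorem pg_triv {A B : K} (hAB : 4 * A ^ 3 + 27 * B ^ 2 ≠ 0)
    {M M' : Type} [Field M] [NumberField M] [Field M'] [NumberField M'] [Algebra K M] [Algebra K M']
    [Algebra M M'] [IsScalarTower K M M'] (hs : Function.Surjective (algebraMap M M')) {d : M}
    (hd : d ≠ 0) (H : PG K A B d) : PG K A B (algebraMap M M' d) := by
  refine pair_step hAB hd one_ne_zero (s := 1) (by simp) (fun x => ?_) H (by rw [mul_one]; exact H)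
  obtain ⟨a, ha⟩ := hs x
  exact ⟨a, 0, by simp [ha]⟩

/-- **Gt2.** -/
theorem pg_scale {A B : K} {M : Type} [Field M] [NumberField M] [Algebra K M] {c d d' : M}
    (hc : c ≠ 0) (h : d' = c ^ 2 * d) (H : PG K A B d) : PG K A B d' := by
  have hR : Rsc c (twM K A B d) (twM K A B d') := rsc_tw A B hc h
  obtain ⟨⟨N, hN⟩, hfin⟩ := H
  refine ⟨⟨N, fun x hx => ?_⟩, ?_⟩
  · obtain ⟨m, hm⟩ := hx
    have h1 : 2 ^ N • shaRsc hR.symm x = 0 := by
      refine hN _ ⟨m, ?_⟩
      rw [← map_nsmul, hm, map_zero]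
    have h2 := congrArg (shaRsc hR.symm.symm) h1
    rw [map_nsmul, map_zero, shaRsc_symm] at h2
    exact h2
  · refine Finite.of_injective (rsc hR.symm) ?_
    intro P Q hPQ
    have h2 := congrArg (rsc hR.symm.symm) hPQ
    rw [rsc_symm, rsc_symm] at h2
    exact h2

end Step

section Join

variable {G : Type*} [Group G]

/-- The subgroup generated by `U` and `z`, if `z ^ 2 ∈ U`. -/
def jn (U : Subgroup G) [hU : U.Normal] (z : G) (hz2 : z ^ 2 ∈ U) : Subgroup G where
  carrier := {x | x ∈ U ∨ x * z⁻¹ ∈ U}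
  mul_mem' := by
    rintro a b (ha | ha) (hb | hb)
    · exact Or.inl (U.mul_mem ha hb)
    · right
      rw [mul_assoc]
      exact U.mul_mem ha hb
    · right
      have e : a * b * z⁻¹ = (a * z⁻¹) * (z * b * z⁻¹) := by group
      rw [e]
      exact U.mul_mem ha (hU.conj_mem _ hb z)
    · left
      have e : a * b = (a * z⁻¹) * (z * (b * z⁻¹) * z⁻¹) * z ^ 2 := by group
      rw [e]
      exact U.mul_mem (U.mul_mem ha (hU.conj_mem _ hb z)) hz2
  one_mem' := Or.inl U.one_mem
  inv_mem' := by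
    rintro a (ha | ha)
    · exact Or.inl (U.inv_mem ha)
    · right
      have e : a⁻¹ * z⁻¹ = ((z * (a * z⁻¹) * z⁻¹) * z ^ 2)⁻¹ := by group
      rw [e]
      exact U.inv_mem (U.mul_mem (hU.conj_mem _ ha z) hz2)

theorem mem_jn {U : Subgroup G} [U.Normal] {z : G} {hz2 : z ^ 2 ∈ U} {x : G} :
    x ∈ jn U z hz2 ↔ x ∈ U ∨ x * z⁻¹ ∈ U := Iff.rfl

theorem jn_normal {U : Subgroup G} [hU : U.Normal] {z : G} (hz2 : z ^ 2 ∈ U)
    (hzc : ∀ y, z * y * z⁻¹ * y⁻¹ ∈ U) : (jn U z hz2).Normal := by
  refine ⟨fun x hx y => ?_⟩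
  rcases mem_jn.1 hx with h | h
  · exact mem_jn.2 (Or.inl (hU.conj_mem _ h y))
  · refine mem_jn.2 (Or.inr ?_)
    have e : y * x * y⁻¹ * z⁻¹ = (y * (x * z⁻¹) * y⁻¹) * (z * y * z⁻¹ * y⁻¹)⁻¹ := by group
    rw [e]
    exact U.mul_mem (hU.conj_mem _ h y) (U.inv_mem (hzc y))

theorem lt_jn {U : Subgroup G} [U.Normal] {z : G} (hz2 : z ^ 2 ∈ U) (hz : z ∉ U) :
    U < jn U z hz2 := by
  refine SetLike.lt_iff_le_and_exists.2 ⟨fun x hx => mem_jn.2 (Or.inl hx), z, mem_jn.2 (Or.inr ?_), hz⟩
  rw [mul_inv_cancel]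
  exact U.one_mem

end Join

section Gal

variable {K N : Type} [Field K] [NumberField K] [Field N] [NumberField N] [Algebra K N]
  [IsGalois K N]

open IntermediateField

/-- An element on which `z` acts by `-1`. -/
theorem ex_anti [FiniteDimensional K N] (H : Subgroup (N ≃ₐ[K] N)) {z : N ≃ₐ[K] N} (hz : z ∉ H)
    (hz2 : z ^ 2 ∈ H) (hn : ∀ h ∈ H, z⁻¹ * h * z ∈ H) :
    ∃ t : N, t ≠ 0 ∧ (∀ h ∈ H, h t = t) ∧ z t = -t := by
  have h1 : z ∉ (fixedField H).fixingSubgroup := by
    rw [fixingSubgroup_fixedField]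
    exact hz
  rw [IntermediateField.mem_fixingSubgroup_iff] at h1
  push Not at h1
  obtain ⟨x, hx, hzx⟩ := h1
  have hx' : ∀ h ∈ H, h x = x := (mem_fixedField_iff H x).1 hx
  have hzz : z (z x) = x := by
    have h2 := hx' _ hz2
    rwa [pow_two] at h2
  refine ⟨x - z x, fun h0 => hzx (sub_eq_zero.1 h0).symm, fun h hh => ?_, ?_⟩
  · have h3 := hx' _ (hn h hh)
    have h4 : h (z x) = z x := by
      have h5 : h (z x) = z ((z⁻¹ * h * z) x) := by
        have h6 : h * z = z * (z⁻¹ * h * z) := by group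
        exact congrArg (fun g : N ≃ₐ[K] N => g x) h6
      rw [h5, h3]
    rw [map_sub, hx' h hh, h4]
  · rw [map_sub, hzz]
    ring

/-- The quadratic step in terms of subfields. -/
theorem step_aux {A B : K} (hAB : 4 * A ^ 3 + 27 * B ^ 2 ≠ 0) {M₀ M : IntermediateField K N}
    [NumberField M₀] [NumberField M] {z : N ≃ₐ[K] N} (hz : ∀ x ∈ M, z x ∈ M)
    (hz2 : ∀ x ∈ M, z (z x) = x) (hM₀ : ∀ x, x ∈ M₀ ↔ x ∈ M ∧ z x = x) {s : N} (hs : s ∈ M)
    (hs0 : s ≠ 0) (hzs : z s = -s) {d m : M₀} (hd : d ≠ 0) (hm : (m : N) = s ^ 2)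
    (H1 : PG K A B d) (H2 : PG K A B (d * m)) {d' : M} (hd' : (d' : N) = d) : PG K A B d' := by
  have hle : M₀ ≤ M := fun x hx => ((hM₀ x).1 hx).1
  letI : Algebra M₀ M := (IntermediateField.inclusion hle).toRingHom.toAlgebra
  have hsc : IsScalarTower K M₀ M := IsScalarTower.of_algebraMap_eq fun x => rfl
  have hco : ∀ x : M₀, ((algebraMap M₀ M x : M) : N) = x := fun _ => rfl
  have hm0 : m ≠ 0 := by
    rintro rfl
    exact hs0 (pow_eq_zero_iff two_ne_zero |>.1 hm.symm)
  have e : d' = algebraMap M₀ M d := Subtype.ext (by rw [hd', hco])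
  rw [e]
  refine pair_step hAB hd hm0 (s := ⟨s, hs⟩) (Subtype.ext (by rw [hco, hm]; rfl)) ?_ H1 H2
  rintro ⟨x, hx⟩
  have h2 : (2 : N) ≠ 0 := two_ne_zero
  have ha : (x + z x) / 2 ∈ M₀ := by
    rw [hM₀]
    refine ⟨div_mem (add_mem hx (hz x hx)) (ofNat_mem M 2), ?_⟩
    rw [map_div₀, map_add, hz2 x hx, map_ofNat, add_comm]
  have hb : (x - z x) / (2 * s) ∈ M₀ := by
    rw [hM₀]
    refine ⟨div_mem (sub_mem hx (hz x hx)) (mul_mem (ofNat_mem M 2) hs), ?_⟩
    rw [map_div₀, map_sub, map_mul, hz2 x hx, map_ofNat, hzs]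
    field_simp
    ring
  refine ⟨⟨_, ha⟩, ⟨_, hb⟩, Subtype.ext ?_⟩
  show x = (x + z x) / 2 + (x - z x) / (2 * s) * s
  field_simp
  ring

/-- **Gt3.** -/
theorem gt_all {r : ℕ} (hr : Module.finrank K N = 2 ^ r) {A B : K}
    (hAB : 4 * A ^ 3 + 27 * B ^ 2 ≠ 0) (h1 : PG K A B (1 : K))
    (H : ∀ (U : Subgroup (N ≃ₐ[K] N)) [U.Normal] (z : N ≃ₐ[K] N), z ∉ U → z ^ 2 ∈ U →
      (∀ y, z * y * z⁻¹ * y⁻¹ ∈ U) →
      (∀ x, x ∉ U → (∀ y, x * y * x⁻¹ * y⁻¹ ∈ U) → x ^ 2 ∈ U → x * z⁻¹ ∈ U) →
      ∀ (M : IntermediateField K N) [NumberField M],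
        (∀ x, x ∈ M ↔ (∀ u ∈ U, u x = x) ∧ z x = x) → ∀ ρ : N, ρ ≠ 0 → (∀ u ∈ U, u ρ = ρ) →
        z ρ = -ρ → ∀ μ : M, (μ : N) = ρ ^ 2 → PG K A B μ) : PG K A B (1 : N) := by
  have hfd : FiniteDimensional K N := Module.Finite.of_restrictScalars_finite ℚ K N
  have hnf : ∀ M : IntermediateField K N, NumberField M := fun M =>
    NumberField.of_module_finite K M
  have hp : IsPGroup 2 (N ≃ₐ[K] N) := IsPGroup.of_card (n := r) (by
    rw [IsGalois.card_aut_eq_finrank, hr])
  -- both statements by induction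
  have key : ∀ U : Subgroup (N ≃ₐ[K] N), U.Normal →
      (∀ z : N ≃ₐ[K] N, z ∉ U → z ^ 2 ∈ U → (∀ y, z * y * z⁻¹ * y⁻¹ ∈ U) →
        ∀ (M : IntermediateField K N) [NumberField M],
        (∀ x, x ∈ M ↔ (∀ u ∈ U, u x = x) ∧ z x = x) → ∀ ρ : N, ρ ≠ 0 → (∀ u ∈ U, u ρ = ρ) →
        z ρ = -ρ → ∀ μ : M, (μ : N) = ρ ^ 2 → PG K A B μ) ∧
      ∀ (M : IntermediateField K N) [NumberField M], (∀ x, x ∈ M ↔ ∀ u ∈ U, u x = x) →
        PG K A B (1 : M) := by
    intro U
    induction U using WellFoundedGT.induction with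
    | ind U ih =>
      intro hU
      have hQ : ∀ z : N ≃ₐ[K] N, z ∉ U → z ^ 2 ∈ U → (∀ y, z * y * z⁻¹ * y⁻¹ ∈ U) →
          ∀ (M : IntermediateField K N) [NumberField M],
          (∀ x, x ∈ M ↔ (∀ u ∈ U, u x = x) ∧ z x = x) → ∀ ρ : N, ρ ≠ 0 → (∀ u ∈ U, u ρ = ρ) →
          z ρ = -ρ → ∀ μ : M, (μ : N) = ρ ^ 2 → PG K A B μ := by
        intro z hzU hz2 hzc M _ hM ρ hρ0 hρU hρz μ hμ
        by_cases hmono : ∀ x, x ∉ U → (∀ y, x * y * x⁻¹ * y⁻¹ ∈ U) → x ^ 2 ∈ U → x * z⁻¹ ∈ U
        · exact H U z hzU hz2 hzc hmono M hM ρ hρ0 hρU hρz μ hμ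
        · push Not at hmono
          obtain ⟨z', hz'U, hz'c, hz'2, hzz'⟩ := hmono
          -- the two larger subgroups
          have hn1 := jn_normal hz'2 hz'c
          have hnz := jn_normal hz2 hzc
          have hzz2 : (z * z') ^ 2 ∈ U := by
            have e : (z * z') ^ 2 = (z * z' * z⁻¹ * z'⁻¹) * (z' * z ^ 2 * z'⁻¹) * z' ^ 2 := by
              rw [pow_two (z * z')]
              group
            rw [e]
            exact U.mul_mem (U.mul_mem (hzc z') (hU.conj_mem _ hz2 z')) hz'2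
          have hzzc : ∀ y, (z * z') * y * (z * z')⁻¹ * y⁻¹ ∈ U := by
            intro y
            have e : (z * z') * y * (z * z')⁻¹ * y⁻¹ =
                (z * (z' * y * z'⁻¹ * y⁻¹) * z⁻¹) * (z * y * z⁻¹ * y⁻¹) := by group
            rw [e]
            exact U.mul_mem (hU.conj_mem _ (hz'c y) z) (hzc y)
          have hn2 := jn_normal hzz2 hzzc
          have hzzU : z * z' ∉ U := by
            intro h
            apply hzz'
            have e : z' * z⁻¹ = z⁻¹ * ((z * z') * (z ^ 2)⁻¹) * z := by group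
            rw [e]
            have h2 := hU.conj_mem _ (U.mul_mem h (U.inv_mem hz2)) z⁻¹
            rwa [inv_inv] at h2
          have hz1 : z ∉ jn U z' hz'2 := by
            rw [mem_jn]
            rintro (h | h)
            · exact hzU h
            · apply hzz'
              have h2 := U.inv_mem h
              rwa [mul_inv_rev, inv_inv] at h2
          have hz'z : z' ∉ jn U z hz2 := by
            rw [mem_jn]
            rintro (h | h)
            · exact hz'U h
            · exact hzz' h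
          have hzz3 : z ∉ jn U (z * z') hzz2 := by
            rw [mem_jn]
            rintro (h | h)
            · exact hzU h
            · apply hz'U
              have e : z * (z * z')⁻¹ = z * z'⁻¹ * z⁻¹ := by group
              rw [e] at h
              have h2 := hU.conj_mem _ h z⁻¹
              have e2 : z⁻¹ * (z * z'⁻¹ * z⁻¹) * z⁻¹⁻¹ = z'⁻¹ := by group
              rw [e2] at h2
              exact (U.inv_mem_iff).1 h2
          have hcj : ∀ (V : Subgroup (N ≃ₐ[K] N)), V.Normal → ∀ (g : N ≃ₐ[K] N), ∀ h ∈ V,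
              g⁻¹ * h * g ∈ V := by
            intro V hV g h hh
            have h2 := hV.conj_mem _ hh g⁻¹
            rwa [inv_inv] at h2
          obtain ⟨t, ht0, htf, htz⟩ := ex_anti (jn U z hz2) hz'z (mem_jn.2 (Or.inl hz'2))
            (hcj _ hnz z')
          obtain ⟨ρ', hρ'0, hρ'f, hρ'z⟩ := ex_anti (jn U z' hz'2) hz1 (mem_jn.2 (Or.inl hz2))
            (hcj _ hn1 z)
          have hself : ∀ g : N ≃ₐ[K] N, g * g⁻¹ ∈ U := fun g => by
            rw [mul_inv_cancel]
            exact U.one_mem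
          have htU : ∀ u ∈ U, u t = t := fun u hu => htf u (mem_jn.2 (Or.inl hu))
          have htz' : z t = t := htf z (mem_jn.2 (Or.inr (hself z)))
          have hρ'U : ∀ u ∈ U, u ρ' = ρ' := fun u hu => hρ'f u (mem_jn.2 (Or.inl hu))
          have hρ'z' : z' ρ' = ρ' := hρ'f z' (mem_jn.2 (Or.inr (hself z')))
          -- the field `M₁`
          have hnf1 := hnf (fixedField (jn (jn U z' hz'2) z (mem_jn.2 (Or.inl hz2))))
          obtain ⟨M₁, hM₁, _⟩ : ∃ (M₁ : IntermediateField K N), (∀ x, x ∈ M₁ ↔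
              ((∀ u ∈ U, u x = x) ∧ z x = x) ∧ z' x = x) ∧ NumberField M₁ := by
            refine ⟨fixedField (jn (jn U z' hz'2) z (mem_jn.2 (Or.inl hz2))), fun x => ?_, hnf1⟩
            rw [mem_fixedField_iff]
            constructor
            · intro h
              refine ⟨⟨fun u hu => h u (mem_jn.2 (Or.inl (mem_jn.2 (Or.inl hu)))),
                h z (mem_jn.2 (Or.inr (mem_jn.2 (Or.inl (hself z)))))⟩,
                h z' (mem_jn.2 (Or.inl (mem_jn.2 (Or.inr (hself z')))))⟩
            · rintro ⟨⟨h1, h2⟩, h3⟩ g hg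
              have h4 : ∀ g ∈ jn U z' hz'2, g x = x := by
                intro g hg
                rcases mem_jn.1 hg with h | h
                · exact h1 g h
                · have e : g = (g * z'⁻¹) * z' := by group
                  rw [e, AlgEquiv.mul_apply, h3]
                  exact h1 _ h
              rcases mem_jn.1 hg with h | h
              · exact h4 g h
              · have e : g = (g * z⁻¹) * z := by group
                rw [e, AlgEquiv.mul_apply, h2]
                exact h4 _ h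
          have hcomm : ∀ x ∈ M, ∀ u ∈ U, u (z' x) = z' x := by
            intro x hx u hu
            have h5 := ((hM x).1 hx).1 _ (hcj U hU z' u hu)
            have h6 : u * z' = z' * (z'⁻¹ * u * z') := by group
            have h7 : u (z' x) = z' ((z'⁻¹ * u * z') x) :=
              congrArg (fun g : N ≃ₐ[K] N => g x) h6
            rw [h7, h5]
          have hstab : ∀ x ∈ M, z' x ∈ M := by
            intro x hx
            rw [hM]
            refine ⟨hcomm x hx, ?_⟩
            have h6 : z * z' = z' * (z'⁻¹ * (z * z' * z⁻¹ * z'⁻¹) * z') * z := by group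
            have h7 : z (z' x) = z' ((z'⁻¹ * (z * z' * z⁻¹ * z'⁻¹) * z') (z x)) :=
              congrArg (fun g : N ≃ₐ[K] N => g x) h6
            rw [h7, ((hM x).1 hx).2, ((hM x).1 hx).1 _ (hcj U hU z' _ (hzc z'))]
          have hinv : ∀ x ∈ M, z' (z' x) = x := by
            intro x hx
            have h5 := ((hM x).1 hx).1 _ hz'2
            rwa [pow_two] at h5
          have hM₁' : ∀ x, x ∈ M₁ ↔ x ∈ M ∧ z' x = x := fun x => by rw [hM₁, hM]
          have htM : t ∈ M := (hM t).2 ⟨htU, htz'⟩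
          have hd1 : ρ' ^ 2 ∈ M₁ := by
            rw [hM₁]
            refine ⟨⟨fun u hu => by rw [map_pow, hρ'U u hu], ?_⟩, ?_⟩
            · rw [map_pow, hρ'z, neg_sq]
            · rw [map_pow, hρ'z']
          have hm1 : t ^ 2 ∈ M₁ := by
            rw [hM₁]
            refine ⟨⟨fun u hu => by rw [map_pow, htU u hu], ?_⟩, ?_⟩
            · rw [map_pow, htz']
            · rw [map_pow, htz, neg_sq]
          obtain ⟨ihQ1, -⟩ := ih (jn U z' hz'2) (lt_jn hz'2 hz'U) hn1
          obtain ⟨ihQ2, -⟩ := ih (jn U (z * z') hzz2) (lt_jn hzz2 hzzU) hn2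
          have H1 : PG K A B (⟨ρ' ^ 2, hd1⟩ : M₁) := by
            refine ihQ1 z hz1 (mem_jn.2 (Or.inl hz2)) (fun y => mem_jn.2 (Or.inl (hzc y))) M₁
              (fun x => ?_) ρ' hρ'0 hρ'f hρ'z _ rfl
            rw [hM₁]
            constructor
            · rintro ⟨⟨h1, h2⟩, h3⟩
              refine ⟨fun g hg => ?_, h2⟩
              rcases mem_jn.1 hg with h | h
              · exact h1 g h
              · have e : g = (g * z'⁻¹) * z' := by group
                rw [e, AlgEquiv.mul_apply, h3]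
                exact h1 _ h
            · rintro ⟨h1, h2⟩
              exact ⟨⟨fun u hu => h1 u (mem_jn.2 (Or.inl hu)), h2⟩,
                h1 z' (mem_jn.2 (Or.inr (hself z')))⟩
          have H2 : PG K A B ((⟨ρ' ^ 2, hd1⟩ : M₁) * ⟨t ^ 2, hm1⟩) := by
            refine ihQ2 z hzz3 (mem_jn.2 (Or.inl hz2)) (fun y => mem_jn.2 (Or.inl (hzc y))) M₁
              (fun x => ?_) (ρ' * t) (mul_ne_zero hρ'0 ht0) ?_ ?_ _ ?_
            · rw [hM₁]
              constructor
              · rintro ⟨⟨h1, h2⟩, h3⟩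
                refine ⟨fun g hg => ?_, h2⟩
                rcases mem_jn.1 hg with h | h
                · exact h1 g h
                · have e : g = (g * (z * z')⁻¹) * (z * z') := by group
                  have e' : g x = (g * (z * z')⁻¹) (z (z' x)) :=
                    congrArg (fun g : N ≃ₐ[K] N => g x) e
                  rw [e', h3, h2]
                  exact h1 _ h
              · rintro ⟨h1, h2⟩
                refine ⟨⟨fun u hu => h1 u (mem_jn.2 (Or.inl hu)), h2⟩, ?_⟩
                have h3 := h1 (z * z') (mem_jn.2 (Or.inr (hself (z * z'))))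
                rw [AlgEquiv.mul_apply] at h3
                exact z.injective (by rw [h3, h2])
            · intro g hg
              rcases mem_jn.1 hg with h | h
              · rw [map_mul, hρ'U g h, htU g h]
              · have e : g = (g * (z * z')⁻¹) * (z * z') := by group
                have e' : g (ρ' * t) = (g * (z * z')⁻¹) (z (z' (ρ' * t))) :=
                  congrArg (fun g : N ≃ₐ[K] N => g (ρ' * t)) e
                rw [e']
                have e1 : z (z' (ρ' * t)) = ρ' * t := by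
                  rw [map_mul, hρ'z', htz, map_mul, hρ'z, map_neg, htz']
                  ring
                rw [e1, map_mul, hρ'U _ h, htU _ h]
            · rw [map_mul, hρ'z, htz']
              ring
            · show ρ' ^ 2 * t ^ 2 = (ρ' * t) ^ 2
              ring
          have hdM : ρ' ^ 2 ∈ M := ((hM₁' _).1 hd1).1
          have H3 : PG K A B (⟨ρ' ^ 2, hdM⟩ : M) :=
            step_aux hAB hstab hinv hM₁' htM ht0 htz (d := ⟨ρ' ^ 2, hd1⟩) (m := ⟨t ^ 2, hm1⟩)
              (fun h0 => pow_ne_zero 2 hρ'0 (congrArg Subtype.val h0)) rfl H1 H2 rfl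
          have hcM : ρ / ρ' ∈ M := by
            rw [hM]
            refine ⟨fun u hu => by rw [map_div₀, hρU u hu, hρ'U u hu], ?_⟩
            rw [map_div₀, hρz, hρ'z, neg_div_neg_eq]
          refine pg_scale (c := ⟨ρ / ρ', hcM⟩) (fun h0 => div_ne_zero hρ0 hρ'0
            (congrArg Subtype.val h0)) (Subtype.ext ?_) H3
          rw [hμ]
          show ρ ^ 2 = (ρ / ρ') ^ 2 * ρ' ^ 2
          field_simp
      refine ⟨hQ, ?_⟩
      intro M _ hM
      by_cases htop : U = ⊤
      · -- `M = K`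
        have hsurj : Function.Surjective (algebraMap K M) := by
          rintro ⟨x, hx⟩
          have h2 : x ∈ (⊥ : IntermediateField K N) := by
            rw [IsGalois.mem_bot_iff_fixed]
            intro g
            exact (hM x).1 hx g (by rw [htop]; exact Subgroup.mem_top g)
          obtain ⟨y, hy⟩ := IntermediateField.mem_bot.1 h2
          exact ⟨y, Subtype.ext hy⟩
        have h3 := pg_triv hAB (M := K) (M' := M) hsurj one_ne_zero h1
        rwa [map_one] at h3
      · -- a central element of order two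
        have hnt : Nontrivial ((N ≃ₐ[K] N) ⧸ U) := by
          rw [QuotientGroup.nontrivial_iff]
          exact htop
        have hpQ : IsPGroup 2 ((N ≃ₐ[K] N) ⧸ U) := hp.to_quotient U
        have hcn := hpQ.center_nontrivial
        obtain ⟨⟨c, hc⟩, hc1⟩ := exists_ne (1 : Subgroup.center ((N ≃ₐ[K] N) ⧸ U))
        obtain ⟨z₀, rfl⟩ := QuotientGroup.mk'_surjective U c
        have hmk : ∀ x : N ≃ₐ[K] N, QuotientGroup.mk' U x = 1 ↔ x ∈ U := fun x => by
          rw [← MonoidHom.mem_ker, QuotientGroup.ker_mk']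
        have hz₀ : z₀ ∉ U := fun h => hc1 (Subtype.ext ((hmk z₀).2 h))
        obtain ⟨k, hz1, hz2⟩ := exists_pow_two hp U hz₀
        obtain ⟨z, hz⟩ : ∃ z, z = z₀ ^ 2 ^ k := ⟨_, rfl⟩
        rw [← hz] at hz1 hz2
        have hzc : ∀ y, z * y * z⁻¹ * y⁻¹ ∈ U := by
          intro y
          have h5 : QuotientGroup.mk' U z ∈ Subgroup.center ((N ≃ₐ[K] N) ⧸ U) := by
            rw [hz, map_pow]
            exact Subgroup.pow_mem _ hc _
          have h6 := Subgroup.mem_center_iff.1 h5 (QuotientGroup.mk' U y)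
          rw [← hmk, map_mul, map_mul, map_mul, map_inv, map_inv, ← h6]
          group
        have hn1 := jn_normal hz2 hzc
        have hcj : ∀ h ∈ U, z⁻¹ * h * z ∈ U := by
          intro h hh
          have h2 := hU.conj_mem _ hh z⁻¹
          rwa [inv_inv] at h2
        obtain ⟨ρ, hρ0, hρU, hρz⟩ := ex_anti U hz1 hz2 hcj
        have hnf0 := hnf (fixedField (jn U z hz2))
        obtain ⟨M₀, hM₀, _⟩ : ∃ (M₀ : IntermediateField K N), (∀ x, x ∈ M₀ ↔
            (∀ u ∈ U, u x = x) ∧ z x = x) ∧ NumberField M₀ := by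
          refine ⟨fixedField (jn U z hz2), fun x => ?_, hnf0⟩
          rw [mem_fixedField_iff]
          constructor
          · intro h
            exact ⟨fun u hu => h u (mem_jn.2 (Or.inl hu)), h z (mem_jn.2 (Or.inr (by
              rw [mul_inv_cancel]
              exact U.one_mem)))⟩
          · rintro ⟨h1, h2⟩ g hg
            rcases mem_jn.1 hg with h | h
            · exact h1 g h
            · have e : g = (g * z⁻¹) * z := by group
              rw [e, AlgEquiv.mul_apply, h2]
              exact h1 _ h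
        have hm1 : ρ ^ 2 ∈ M₀ := by
          rw [hM₀]
          exact ⟨fun u hu => by rw [map_pow, hρU u hu], by rw [map_pow, hρz, neg_sq]⟩
        obtain ⟨-, ihR⟩ := ih (jn U z hz2) (lt_jn hz2 hz1) hn1
        have H1 : PG K A B (1 : M₀) := by
          refine ihR M₀ fun x => ?_
          rw [hM₀]
          constructor
          · rintro ⟨h1, h2⟩ g hg
            rcases mem_jn.1 hg with h | h
            · exact h1 g h
            · have e : g = (g * z⁻¹) * z := by group
              rw [e, AlgEquiv.mul_apply, h2]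
              exact h1 _ h
          · intro h
            exact ⟨fun u hu => h u (mem_jn.2 (Or.inl hu)), h z (mem_jn.2 (Or.inr (by
              rw [mul_inv_cancel]
              exact U.one_mem)))⟩
        have H2 : PG K A B ((1 : M₀) * ⟨ρ ^ 2, hm1⟩) := by
          rw [one_mul]
          exact hQ z hz1 hz2 hzc M₀ hM₀ ρ hρ0 hρU hρz _ rfl
        refine step_aux hAB (M₀ := M₀) (M := M) (z := z) (fun x hx => ?_) (fun x hx => ?_)
          (fun x => by rw [hM₀, hM]) ((hM ρ).2 hρU) hρ0 hρz (d := 1) (m := ⟨ρ ^ 2, hm1⟩)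
          one_ne_zero rfl H1 H2 rfl
        · rw [hM]
          intro u hu
          have h5 := (hM x).1 hx _ (hcj u hu)
          have h6 : u * z = z * (z⁻¹ * u * z) := by group
          have h7 : u (z x) = z ((z⁻¹ * u * z) x) := congrArg (fun g : N ≃ₐ[K] N => g x) h6
          rw [h7, h5]
        · have h5 := (hM x).1 hx _ hz2
          rwa [pow_two] at h5
  have hnt := hnf (⊤ : IntermediateField K N)
  have h5 : PG K A B (1 : (⊤ : IntermediateField K N)) := (key ⊥ inferInstance).2 ⊤ fun x => by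
    refine ⟨fun _ u hu => ?_, fun _ => IntermediateField.mem_top⟩
    rw [Subgroup.mem_bot.1 hu]
    rfl
  have h6 := pg_triv hAB (M := (⊤ : IntermediateField K N)) (M' := N)
    (fun x => ⟨⟨x, IntermediateField.mem_top⟩, rfl⟩) one_ne_zero h5
  rwa [map_one] at h6

/-- **Gt4.** -/
theorem pg_down {A B : K} (hAB : 4 * A ^ 3 + 27 * B ^ 2 ≠ 0) (H : PG K A B (1 : N))
    (M : Type) [Field M] [NumberField M] [Algebra K M] [Algebra M N] [IsScalarTower K M N] {d : M}
    (hd : d ≠ 0) (hsq : IsSquare (algebraMap M N d)) :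
    Finite (twM K A B d).toAffine.Point ∧ H14T1.TwoPartFinite M (twM K A B d) := by
  obtain ⟨s, hs⟩ := hsq
  have hs0 : s ≠ 0 := by
    rintro rfl
    rw [mul_zero] at hs
    exact hd ((map_eq_zero _).1 hs)
  have hN : PG K A B (algebraMap M N d) := pg_scale hs0 (by rw [hs]; ring) H
  have _ : FiniteDimensional M N := Module.Finite.of_restrictScalars_finite ℚ M N
  obtain ⟨⟨n, hNb⟩, hfinF⟩ := hN
  have hV : (twM K A B d).map (algebraMap M N) = twM K A B (algebraMap M N d) := twM_map K A B d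
  have hfr : Module.finrank M N ≠ 0 := Module.finrank_pos.ne'
  haveI : (twM K A B d).IsElliptic := twM_ell hAB hd
  constructor
  · exact Finite.of_injective (pm (algebraMap M N) hV) (pm_injective _ hV)
  · refine H14T1.twoPartFinite_of ((sha_finite_torsion (twM K A B d)
      (2 ^ n * Module.finrank M N) (mul_ne_zero (by positivity) hfr)).subset ?_)
    rintro x ⟨m, hm⟩
    have h1 : 2 ^ n • Sha.res hV x = 0 := by
      refine hNb _ ⟨m, ?_⟩
      rw [← map_nsmul, hm, map_zero]
    have h2 := congrArg (Sha.cor hV) h1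
    rw [map_nsmul, map_zero, Sha.cor_res, ← mul_nsmul'] at h2
    exact h2

end Gal

end H36MG
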